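import Mathlib

namespace Pool.Agent.Results.MP_45ad35_al.Covering

universe u

/-- o-conjugacy: a g = g b and b h = h a for some g, h in S with an identity adjoined -/
def OConj {S : Type u} [Semigroup S] (a b : S) : Prop :=
  ∃ g h : WithOne S, (a : WithOne S) * g = g * b ∧ (b : WithOne S) * h = h * a

theorem result (X : Type u) [Nonempty X] (τ : Setoid X) :
    ∃ _ : Semigroup X, ∀ a b : X, OConj a b ↔ τ a b := by
  have : Nonempty (Quotient τ) := ⟨Quotient.mk τ (Classical.arbitrary X)⟩
  obtain ⟨R⟩ := nonempty_commRing (Quotient τ)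
  let inst : Semigroup X :=
    { mul := fun x y => (Quotient.mk τ x + Quotient.mk τ y).out
      mul_assoc := fun x y z => by
        change (Quotient.mk τ (Quotient.mk τ x + Quotient.mk τ y).out + Quotient.mk τ z).out =
          (Quotient.mk τ x + Quotient.mk τ (Quotient.mk τ y + Quotient.mk τ z).out).out
        rw [Quotient.out_eq, Quotient.out_eq, add_assoc] }
  have hm : ∀ x y : X, x * y = (Quotient.mk τ x + Quotient.mk τ y).out := fun _ _ => rfl
  refine ⟨inst, fun a b => ⟨?_, fun h => ⟨a, a, ?_, ?_⟩⟩⟩
  · rintro ⟨g, -, h, -⟩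
    induction g using WithOne.recOneCoe with
    | one =>
      rw [mul_one, one_mul, WithOne.coe_inj] at h
      rw [h]
    | coe g =>
      rw [← WithOne.coe_mul, ← WithOne.coe_mul, WithOne.coe_inj, hm, hm, Quotient.out_inj,
        add_comm, add_right_inj] at h
      exact Quotient.exact h
  · rw [← WithOne.coe_mul, ← WithOne.coe_mul, hm, hm, Quotient.sound h]
  · rw [← WithOne.coe_mul, ← WithOne.coe_mul, hm, hm, Quotient.sound h]

end Pool.Agent.Results.MP_45ad35_al.Covering
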